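import Mathlib

/-!
# Project HD (MP_950ff6_co), piece TB: the Tutte–Berge formula in the form needed

PROOF. Let `n = card V`. For a finset `A` let `odd A` be the number of components with an odd number of
vertices of `H` minus `A` (`((⊤ : H.Subgraph).deleteVerts A).coe.oddComponents.ncard`). Choose `A` such
that `D := odd A - A.card` (an integer) is maximal; taking `A = ∅` shows `D ≥ 0`, so it is a natural
number, and `D ≡ n` mod 2 (`SimpleGraph.odd_ncard_oddComponents` for `H` minus `A`).
Let `H'` be the graph on `V ⊕ Fin D` obtained from `H` by making every new vertex adjacent to everything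
else. `H'` has no Tutte violator (Mathlib: `SimpleGraph.tutte`, `SimpleGraph.IsTutteViolator`): if `U`
does not contain all new vertices then `H'` minus `U` has at most one component; if `U = ∅` the number of
its odd components is 0 because `n + D` is even, otherwise it is at most `1 ≤ U.ncard`. If `U` contains
all new vertices then `H'` minus `U` is isomorphic to `H` minus `U ∩ V`, hence has at most
`D + (U ∩ V).card = U.ncard` odd components. So `H'` has a perfect matching `M`.
Colour `Hᶜ`: a vertex whose partner is new gets its own colour (at most `D` such vertices), two matched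
old vertices (they are adjacent in `H`, so not adjacent in `Hᶜ`) get a common colour. The number of
colours is at most `(n + D) / 2 = k`, where `2 k + A.card = n + odd A`.
`X` = one vertex of every odd component of `H` minus `A`; `c v` = a fixed representative of the component
of `v` in `H` minus `A` (anything for `v ∈ A`).
-/

set_option autoImplicit false

namespace Pool.Agent.Helper56.HD

open SimpleGraph

/-- the number of components with an odd number of vertices of `H` minus `A` -/
noncomputable def oddC {V : Type} (H : SimpleGraph V) (A : Set V) : ℕ :=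
  ((⊤ : H.Subgraph).deleteVerts A).coe.oddComponents.ncard

theorem mem_del {V : Type} (H : SimpleGraph V) (A : Set V) (x : V) :
    x ∈ ((⊤ : H.Subgraph).deleteVerts A).verts ↔ x ∉ A := by
  simp

theorem oddC_iso_le {V W : Type} [Finite W] {G : SimpleGraph V} {G' : SimpleGraph W}
    (φ : G ≃g G') : G.oddComponents.ncard ≤ G'.oddComponents.ncard := by
  refine Set.ncard_le_ncard_of_injOn (fun C => φ.connectedComponentEquiv C) ?_ ?_
    (Set.toFinite _)
  · intro C hC
    have h := Nat.card_congr (ConnectedComponent.isoEquivSupp φ C)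
    simp only [oddComponents, Set.mem_ofPred_eq] at hC ⊢
    rw [← Nat.card_coe_set_eq] at hC ⊢
    rwa [← h]
  · intro C _ C' _ h
    exact φ.connectedComponentEquiv.injective h

theorem oddC_parity {V : Type} [Fintype V] (H : SimpleGraph V) (A : Set V) :
    Odd (oddC H A) ↔ Odd (Fintype.card V + A.ncard) := by
  classical
  unfold oddC
  rw [odd_ncard_oddComponents, Nat.card_coe_set_eq]
  have h : ((⊤ : H.Subgraph).deleteVerts A).verts = Set.univ \ A := by simp
  rw [h]
  have h2 := Set.ncard_sdiff_add_ncard_of_subset (Set.subset_univ A)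
  rw [Set.ncard_univ, Nat.card_eq_fintype_card] at h2
  rw [← h2]
  rw [add_assoc, ← two_mul, Nat.odd_add]
  simp

theorem exists_max {V : Type} [Fintype V] [DecidableEq V] (H : SimpleGraph V) :
    ∃ (A : Finset V) (D : ℕ), oddC H A = A.card + D ∧
      ∀ B : Finset V, oddC H B ≤ B.card + D := by
  obtain ⟨A, -, hA⟩ := Finset.exists_max_image (Finset.univ : Finset (Finset V))
    (fun A => (oddC H A : ℤ) - A.card) ⟨∅, Finset.mem_univ _⟩
  have h0 := hA ∅ (Finset.mem_univ _)
  simp only [Finset.card_empty] at h0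
  refine ⟨A, oddC H A - A.card, by omega, fun B => ?_⟩
  have hB := hA B (Finset.mem_univ _)
  omega

/-- `H` with `D` new vertices adjacent to everything -/
def addD {V : Type} (H : SimpleGraph V) (D : ℕ) : SimpleGraph (V ⊕ Fin D) where
  Adj a b := a ≠ b ∧ ∀ u v, a = Sum.inl u → b = Sum.inl v → H.Adj u v
  symm := ⟨fun _ _ h => ⟨h.1.symm, fun u v hu hv => (h.2 v u hv hu).symm⟩⟩
  loopless := ⟨fun _ h => h.1 rfl⟩

theorem addD_inr {V : Type} (H : SimpleGraph V) (D : ℕ) (d : Fin D) (a : V ⊕ Fin D)
    (h : a ≠ Sum.inr d) : (addD H D).Adj a (Sum.inr d) :=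
  ⟨h, fun u v _ hv => by simp at hv⟩

theorem addD_inl {V : Type} (H : SimpleGraph V) (D : ℕ) (u v : V) :
    (addD H D).Adj (Sum.inl u) (Sum.inl v) ↔ H.Adj u v := by
  constructor
  · intro h
    exact h.2 u v rfl rfl
  · intro h
    refine ⟨fun e => h.ne (Sum.inl.inj e), fun u' v' hu hv => ?_⟩
    rw [← Sum.inl.inj hu, ← Sum.inl.inj hv]
    exact h

theorem oddC_addD_le_one {V : Type} [Fintype V] (H : SimpleGraph V) (D : ℕ)
    (U : Set (V ⊕ Fin D)) (d : Fin D) (hd : Sum.inr d ∉ U) : oddC (addD H D) U ≤ 1 := by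
  unfold oddC
  have hdm : (Sum.inr d : V ⊕ Fin D) ∈ ((⊤ : (addD H D).Subgraph).deleteVerts U).verts :=
    (mem_del _ _ _).2 hd
  have key : ∀ x : ((⊤ : (addD H D).Subgraph).deleteVerts U).verts,
      ((⊤ : (addD H D).Subgraph).deleteVerts U).coe.Reachable x ⟨Sum.inr d, hdm⟩ := by
    intro x
    by_cases hx : x = ⟨Sum.inr d, hdm⟩
    · rw [hx]
    · apply SimpleGraph.Adj.reachable
      have hx2 : (x : V ⊕ Fin D) ≠ Sum.inr d := fun e => hx (Subtype.ext e)
      have hxU : (x : V ⊕ Fin D) ∉ U := (mem_del _ _ _).1 x.2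
      simp only [Subgraph.coe_adj, Subgraph.deleteVerts_adj, Subgraph.verts_top, Set.mem_univ,
        true_and, Subgraph.top_adj]
      exact ⟨hxU, hd, addD_inr H D d _ hx2⟩
  rw [Set.ncard_le_one (Set.toFinite _)]
  intro C _ C' _
  induction C using ConnectedComponent.ind with
  | h x =>
    induction C' using ConnectedComponent.ind with
    | h y => exact ConnectedComponent.sound ((key x).trans (key y).symm)

/-- deleting all the new vertices -/
noncomputable def delIso {V : Type} (H : SimpleGraph V) (D : ℕ)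
    (U : Set (V ⊕ Fin D)) (hU : ∀ d : Fin D, Sum.inr d ∈ U) :
    ((⊤ : H.Subgraph).deleteVerts (Sum.inl ⁻¹' U)).coe ≃g
      ((⊤ : (addD H D).Subgraph).deleteVerts U).coe where
  toEquiv := Equiv.ofBijective
    (fun x => ⟨Sum.inl x.1, (mem_del (addD H D) U _).2
      ((mem_del H (Sum.inl ⁻¹' U) x.1).1 x.2)⟩) (by
      constructor
      · intro x y h
        exact Subtype.ext (Sum.inl.inj (Subtype.ext_iff.1 h))
      · rintro ⟨y | d, hy⟩
        · exact ⟨⟨y, (mem_del H (Sum.inl ⁻¹' U) y).2
            ((mem_del (addD H D) U (Sum.inl y)).1 hy)⟩, rfl⟩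
        · exact absurd (hU d) ((mem_del _ _ _).1 hy))
  map_rel_iff' := by
    intro a b
    have ha := (mem_del _ _ _).1 a.2
    have hb := (mem_del _ _ _).1 b.2
    have ha' : Sum.inl (a : V) ∉ U := ha
    have hb' : Sum.inl (b : V) ∉ U := hb
    simp only [Equiv.ofBijective_apply, Subgraph.coe_adj, Subgraph.deleteVerts_adj,
      Subgraph.verts_top, Set.mem_univ, true_and, Subgraph.top_adj, Set.mem_preimage, addD_inl]

theorem addD_tutte {V : Type} [Fintype V] [DecidableEq V] (H : SimpleGraph V) (D : ℕ)
    (hpar : Even (Fintype.card V + D)) (hD : ∀ B : Finset V, oddC H B ≤ B.card + D) :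
    ∃ M : (addD H D).Subgraph, M.IsPerfectMatching := by
  classical
  rw [SimpleGraph.tutte]
  intro U hU
  have hU' : U.ncard < oddC (addD H D) U := hU
  by_cases hall : ∀ d : Fin D, Sum.inr d ∈ U
  · have h1 : oddC (addD H D) U ≤ oddC H (Sum.inl ⁻¹' U) := by
      unfold oddC
      exact oddC_iso_le (delIso H D U hall).symm
    have h2 := hD (Sum.inl ⁻¹' U : Set V).toFinset
    rw [Set.coe_toFinset] at h2
    have h3 : U = Sum.inl '' (Sum.inl ⁻¹' U : Set V) ∪ Sum.inr '' (Set.univ : Set (Fin D)) := by
      ext x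
      rcases x with v | d
      · simp
      · simp [hall d]
    have h4 : U.ncard = (Sum.inl ⁻¹' U : Set V).toFinset.card + D := by
      conv_lhs => rw [h3]
      rw [Set.ncard_union_eq _ (Set.toFinite _) (Set.toFinite _),
        Set.ncard_image_of_injective _ Sum.inl_injective,
        Set.ncard_image_of_injective _ Sum.inr_injective, Set.ncard_univ, Nat.card_fin,
        Set.ncard_eq_toFinset_card']
      rw [Set.disjoint_left]
      rintro x ⟨v, _, rfl⟩ ⟨d, _, h⟩
      simp at h
    omega
  · push Not at hall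
    obtain ⟨d, hd⟩ := hall
    have h1 := oddC_addD_le_one H D U d hd
    have h2 := oddC_parity (addD H D) U
    have h3 : U.ncard = 0 := by omega
    have h4 : oddC (addD H D) U = 1 := by omega
    rw [h3, h4, Fintype.card_sum, Fintype.card_fin, add_zero] at h2
    have h5 := h2.1 odd_one
    exact (Nat.not_odd_iff_even.2 hpar) h5

theorem compl_colorable {V : Type} [Fintype V] [DecidableEq V] (H : SimpleGraph V) (D k : ℕ)
    (hk : 2 * k = Fintype.card V + D) (M : (addD H D).Subgraph) (hM : M.IsPerfectMatching) :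
    Hᶜ.Colorable k := by
  classical
  rw [Subgraph.isPerfectMatching_iff] at hM
  choose p hp hp' using hM
  have hc : Fintype.card M.spanningCoe.edgeSet = k := by
    have h1 := M.spanningCoe.sum_degrees_eq_twice_card_edges
    have h2 : ∀ v, M.spanningCoe.degree v = 1 := by
      intro v
      rw [SimpleGraph.degree_eq_one_iff_existsUnique_adj]
      exact ⟨p v, hp v, hp' v⟩
    simp only [h2, Finset.sum_const, Finset.card_univ, Fintype.card_sum, Fintype.card_fin,
      smul_eq_mul, mul_one] at h1
    rw [← SimpleGraph.edgeFinset_card]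
    omega
  rw [← hc]
  refine SimpleGraph.Coloring.colorable (SimpleGraph.Coloring.mk
    (fun v => (⟨s(Sum.inl v, p (Sum.inl v)), hp (Sum.inl v)⟩ : M.spanningCoe.edgeSet)) ?_)
  intro u v huv h
  have h1 : s((Sum.inl u : V ⊕ Fin D), p (Sum.inl u)) = s(Sum.inl v, p (Sum.inl v)) :=
    Subtype.ext_iff.1 h
  rw [Sym2.eq_iff] at h1
  rw [SimpleGraph.compl_adj] at huv
  rcases h1 with ⟨h1, -⟩ | ⟨h1, h2⟩
  · exact huv.1 (Sum.inl.inj h1)
  · have h3 := M.adj_sub (hp (Sum.inl u))
    rw [h2] at h3
    exact huv.2 ((addD_inl H D u v).1 h3)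

theorem tutte_berge {V : Type} [Fintype V] [DecidableEq V] (H : SimpleGraph V) :
    ∃ (A X : Finset V) (c : V → V) (k : ℕ),
      Disjoint A X ∧ A.card ≤ X.card ∧
      (∀ u v, u ∉ A → v ∉ A → H.Adj u v → c u = c v) ∧
      (∀ x ∈ X, ∀ y ∈ X, c x = c y → x = y) ∧
      2 * k + A.card = Fintype.card V + X.card ∧ Hᶜ.Colorable k := by
  classical
  obtain ⟨A, D, hA, hD⟩ := exists_max H
  have hpar : Even (Fintype.card V + D) := by
    have h := oddC_parity H (A : Set V)
    rw [hA, Set.ncard_coe_finset, Nat.odd_add, Nat.odd_add] at h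
    rw [Nat.even_add]
    rcases Nat.even_or_odd (Fintype.card V) with h1 | h1 <;>
    rcases Nat.even_or_odd D with h2 | h2 <;>
    rcases Nat.even_or_odd A.card with h3 | h3 <;>
    simp_all [← Nat.not_even_iff_odd]
  obtain ⟨M, hM⟩ := addD_tutte H D hpar hD
  obtain ⟨k, hk⟩ := hpar
  have hcol := compl_colorable H D k (by omega) M hM
  -- representatives
  let G := ((⊤ : H.Subgraph).deleteVerts (A : Set V)).coe
  let r : G.ConnectedComponent → V := fun C => (Quot.out C : _).1
  have hr : ∀ C, ∃ h, G.connectedComponentMk ⟨r C, h⟩ = C := by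
    intro C
    exact ⟨(Quot.out C : _).2, Quot.out_eq C⟩
  have hrinj : Function.Injective r := by
    intro C C' h
    obtain ⟨h1, e1⟩ := hr C
    obtain ⟨h2, e2⟩ := hr C'
    rw [← e1, ← e2]
    congr 1
    exact Subtype.ext h
  let c : V → V := fun v => if h : v ∉ (A : Set V) then
    r (G.connectedComponentMk ⟨v, (mem_del _ _ _).2 h⟩) else v
  have hcr : ∀ C, c (r C) = r C := by
    intro C
    obtain ⟨h1, e1⟩ := hr C
    have h2 : r C ∉ (A : Set V) := (mem_del _ _ _).1 h1
    show (if h : r C ∉ (A : Set V) then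
      r (G.connectedComponentMk ⟨r C, (mem_del _ _ _).2 h⟩) else r C) = r C
    rw [dif_pos h2, e1]
  let X : Finset V := (r '' G.oddComponents).toFinset
  have hXc : X.card = A.card + D := by
    rw [← hA]
    unfold oddC
    rw [← Set.ncard_image_of_injective _ hrinj, Set.ncard_eq_toFinset_card']
  have hXm : ∀ x, x ∈ X ↔ ∃ C ∈ G.oddComponents, r C = x := by
    intro x
    simp only [X, Set.mem_toFinset, Set.mem_image]
  refine ⟨A, X, c, k, ?_, by omega, ?_, ?_, by omega, hcol⟩
  · rw [Finset.disjoint_right]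
    intro x hx
    obtain ⟨C, -, rfl⟩ := (hXm x).1 hx
    obtain ⟨h1, -⟩ := hr C
    exact fun h => (mem_del _ _ _).1 h1 (Finset.mem_coe.2 h)
  · intro u v hu hv huv
    have hu' : u ∉ (A : Set V) := hu
    have hv' : v ∉ (A : Set V) := hv
    show (if h : u ∉ (A : Set V) then
      r (G.connectedComponentMk ⟨u, (mem_del _ _ _).2 h⟩) else u) =
      (if h : v ∉ (A : Set V) then
      r (G.connectedComponentMk ⟨v, (mem_del _ _ _).2 h⟩) else v)
    rw [dif_pos hu', dif_pos hv']
    congr 1
    apply ConnectedComponent.sound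
    apply SimpleGraph.Adj.reachable
    show ((⊤ : H.Subgraph).deleteVerts (A : Set V)).Adj u v
    rw [Subgraph.deleteVerts_adj]
    exact ⟨Set.mem_univ _, hu', Set.mem_univ _, hv', huv⟩
  · intro x hx y hy h
    obtain ⟨C, -, rfl⟩ := (hXm x).1 hx
    obtain ⟨C', -, rfl⟩ := (hXm y).1 hy
    rwa [hcr, hcr] at h

end Pool.Agent.Helper56.HD
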